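import Pool.Agent.X136.FK.Main

set_option autoImplicit false

/-!
# Limits in law of the exploration paths
-/

namespace Pool.Agent.X136.FK

open Finset H974 H984P H984N MeasureTheory Filter Topology
open Pool.Agent.X136.FK.Model (rnd clusters weight mean path law lawM)

theorem pl_congr {N : ℕ} {p p' : ℕ → ℂ} (h : ∀ k ≤ N, p k = p' k) : pl N p = pl N p' := by
  ext s
  show p 0 + ∑ k ∈ Finset.range N, ((clamp (s * N - k) : ℝ) : ℂ) * (p (k + 1) - p k) =
    p' 0 + ∑ k ∈ Finset.range N, ((clamp (s * N - k) : ℝ) : ℂ) * (p' (k + 1) - p' k)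
  rw [h 0 (Nat.zero_le _)]
  congr 1
  refine Finset.sum_congr rfl fun k hk => ?_
  rw [Finset.mem_range] at hk
  rw [h k hk.le, h (k + 1) hk]

/-- curve and time as functions of the list of the states -/
noncomputable def cv (D : Dm) (δ : ℝ) (l : List St) : X :=
  (pl (l.length - 1) (fun k => pos δ (l.getD k D.start)), δ ^ (7/4 : ℝ) * ((l.length - 1 : ℕ) : ℝ))

theorem cv_path (R : Rect) (δ : ℝ) (F : Finset Edg) :
    cv (R.dm δ) δ (path (R.dm δ) F) = (R.curve δ F, R.time δ F) := by
  have hl : (path (R.dm δ) F).length - 1 = (R.dm δ).len F := by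
    unfold path
    rw [List.length_map, List.length_range]
    omega
  unfold cv Rect.curve Rect.time
  rw [hl]
  congr 1
  refine pl_congr fun k hk => ?_
  congr 1
  unfold path
  rw [List.getD_eq_getElem?_getD, List.getElem?_map, List.getElem?_range (by omega)]
  rfl

theorem int_law (R : Rect) {q : ℝ} (hq : 0 < q) (δ : ℝ) (f : BoundedContinuousFunction X ℝ) :
    ∫ x, f x ∂(law R hq δ : Measure X) =
      mean (R.dm δ) q (fun F => f (R.curve δ F, R.time δ F)) := by
  show ∫ x, f x ∂(lawM R q δ) = _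
  unfold lawM mean
  rw [integral_finsetSum_measure]
  · rw [Finset.sum_div]
    refine Finset.sum_congr rfl fun F _ => ?_
    rw [integral_smul_measure, integral_dirac, ENNReal.toReal_ofReal
      (div_nonneg (Model.weight_pos _ hq F).le (Model.Z_pos _ hq).le), smul_eq_mul]
    show weight (R.dm δ) q F / (∑ F ∈ (rnd (R.dm δ)).powerset, weight (R.dm δ) q F) * _ = _
    ring
  · intro F _
    exact (integrable_dirac (by simp)).smul_measure ENNReal.ofReal_ne_top

theorem int_law1 (R : Rect) (δ : ℝ) (f : BoundedContinuousFunction X ℝ) :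
    ∫ x, f x ∂(R.law δ : Measure X) =
      mean (R.dm δ) 1 (fun F => f (R.curve δ F, R.time δ F)) := by
  have h1 : ∫ x, f x ∂(R.law δ : Measure X) =
      E (R.dm δ).edges (fun F => f (R.curve δ F, R.time δ F)) := by
    show ∫ x, f x ∂(R.lawM δ) = _
    unfold Rect.lawM
    rw [integral_finsetSum_measure, Ex_half, Finset.mul_sum]
    · refine Finset.sum_congr rfl fun F _ => ?_
      rw [integral_smul_measure, integral_dirac, ENNReal.toReal_ofReal (by positivity), smul_eq_mul]
    · intro F _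
      exact (integrable_dirac (by simp)).smul_measure ENNReal.ofReal_ne_top
  rw [h1]
  have h2 : E (R.dm δ).edges (fun F => f (R.curve δ F, R.time δ F)) =
      E (rnd (R.dm δ)) (fun F => f (R.curve δ F, R.time δ F)) := by
    refine Ex_local (bulk_sub _) fun F hF => ?_
    rw [← cv_path, ← cv_path]
    have : path (R.dm δ) F = path (R.dm δ) (F ∩ rnd (R.dm δ)) := by
      unfold path Dm.walk Dm.len Dm.walk
      rw [cfg_inter _ hF]
    rw [this]
  rw [h2, Ex_half]
  unfold mean
  simp only [weight_one, one_mul, Finset.sum_const, nsmul_eq_mul, mul_one, Finset.card_powerset]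
  push_cast
  rw [one_div, inv_pow]
  ring

/-- The difference of the means of a bounded function of the path and its time. -/
theorem int_diff : ∃ C : ℝ, 0 < C ∧ ∀ R : Rect, ∃ S δ0 : ℝ, 0 < S ∧ 0 < δ0 ∧
    ∀ (q : ℝ) (hq : 0 < q) (δ : ℝ), 0 < δ → δ ≤ δ0 → ∀ f : BoundedContinuousFunction X ℝ,
    |∫ x, f x ∂(law R hq δ : Measure X) - ∫ x, f x ∂(R.law δ : Measure X)| ≤
      ‖f‖ * (C * |q - 1| * (S / δ) ^ (7/8 : ℝ)) := by
  obtain ⟨C, hC, h⟩ := fk_tv
  refine ⟨C, hC, fun R => ?_⟩
  obtain ⟨κ, S, δ0, hκ, hS, hδ0, -, hsh⟩ := R.shape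
  refine ⟨S, min δ0 S, hS, lt_min hδ0 hS, fun q hq δ hδ hδ' f => ?_⟩
  have h1 := hsh δ hδ (hδ'.trans (min_le_left _ _))
  have hn : 1 ≤ S / δ := by
    rw [le_div_iff₀ hδ, one_mul]
    exact hδ'.trans (min_le_right _ _)
  rw [int_law, int_law1]
  rcases (norm_nonneg f).eq_or_lt with h0 | h0
  · have hz : ∀ x, f x = 0 := fun x => by
      have := f.norm_coe_le_norm x
      rw [← h0] at this
      exact norm_le_zero_iff.1 this
    unfold mean
    simp only [hz, mul_zero, Finset.sum_const_zero, zero_div, sub_zero, abs_zero]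
    positivity
  · have h2 := h q hq (R.dm δ) (S / δ) h1.ok hn h1.w_le h1.h_le
      (fun l => f (cv (R.dm δ) δ l) / ‖f‖) (fun l => by
        rw [abs_div, abs_of_pos h0, div_le_one h0]
        exact f.norm_coe_le_norm _)
    have e : ∀ q : ℝ, mean (R.dm δ) q (fun F => f (cv (R.dm δ) δ (path (R.dm δ) F)) / ‖f‖) =
        mean (R.dm δ) q (fun F => f (R.curve δ F, R.time δ F)) / ‖f‖ := by
      intro q
      unfold mean
      have e1 : ∑ F ∈ (rnd (R.dm δ)).powerset, weight (R.dm δ) q F *
          (f (cv (R.dm δ) δ (path (R.dm δ) F)) / ‖f‖) =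
          (∑ F ∈ (rnd (R.dm δ)).powerset, weight (R.dm δ) q F * f (R.curve δ F, R.time δ F)) /
            ‖f‖ := by
        rw [Finset.sum_div]
        refine Finset.sum_congr rfl fun F _ => ?_
        rw [cv_path]
        ring
      rw [e1, div_right_comm]
    rw [e, e, ← sub_div, abs_div, abs_of_pos h0, div_le_iff₀ h0] at h2
    linarith

/-- **The laws of the paths have the same limits.** -/
theorem lim_iff (R : Rect) {q δ : ℕ → ℝ} (hq : ∀ i, 0 < q i) (hδ : ∀ i, 0 < δ i)
    (hlim : Tendsto δ atTop (𝓝 0))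
    (hw : Tendsto (fun i => |q i - 1| * δ i ^ (-(7/8) : ℝ)) atTop (𝓝 0)) (μ : ProbabilityMeasure X) :
    Tendsto (fun i => law R (hq i) (δ i)) atTop (𝓝 μ) ↔
      Tendsto (fun i => R.law (δ i)) atTop (𝓝 μ) := by
  obtain ⟨C, hC, h⟩ := int_diff
  obtain ⟨S, δ0, hS, hδ0, h⟩ := h R
  have key : ∀ f : BoundedContinuousFunction X ℝ,
      Tendsto (fun i => ∫ x, f x ∂(law R (hq i) (δ i) : Measure X) -
        ∫ x, f x ∂(R.law (δ i) : Measure X)) atTop (𝓝 0) := by
    intro f
    have h1 : Tendsto (fun i => ‖f‖ * C * S ^ (7/8 : ℝ) * (|q i - 1| * δ i ^ (-(7/8) : ℝ))) atTop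
        (𝓝 0) := by
      simpa using hw.const_mul (‖f‖ * C * S ^ (7/8 : ℝ))
    refine squeeze_zero_norm' ?_ h1
    filter_upwards [hlim.eventually (ge_mem_nhds hδ0)] with i hi
    rw [Real.norm_eq_abs]
    refine (h (q i) (hq i) (δ i) (hδ i) hi f).trans (le_of_eq ?_)
    rw [Real.div_rpow hS.le (hδ i).le, Real.rpow_neg (hδ i).le]
    field_simp
  rw [ProbabilityMeasure.tendsto_iff_forall_integral_tendsto,
    ProbabilityMeasure.tendsto_iff_forall_integral_tendsto]
  refine forall_congr' fun f => ⟨fun h1 => ?_, fun h1 => ?_⟩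
  · have := h1.sub (key f)
    simpa using this
  · have := h1.add (key f)
    simpa using this

end Pool.Agent.X136.FK
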