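import Pool.Agent.X136.FK.Rc
import Pool.Agent.Results.MP_fe58d8_pr.NaturalCurve

set_option autoImplicit false

/-!
# Comparison of the laws of the exploration paths
-/

namespace Pool.Agent.X136.FK

open Finset H974 H984P H984N MeasureTheory Filter Topology
open Pool.Agent.X136.FK.Model (rnd clusters weight mean path)

theorem run_walk_aux (D : Dm) (F : Finset Edg) (hlen : D.walk F (D.len F) = Dm.stop) (k : ℕ) :
    ∀ n j : ℕ, j + k = D.len F → k ≤ n →
      run D.wir Dm.stop n (D.walk F j) F = (List.range (k + 1)).map fun i => D.walk F (j + i) := by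
  induction k with
  | zero =>
    intro n j hj _
    have h1 : D.walk F j = Dm.stop := by rw [← hlen, ← hj, add_zero]
    rw [List.range_one, List.map_cons, List.map_nil, add_zero]
    cases n with
    | zero => rfl
    | succ n => unfold run; rw [if_pos h1]
  | succ k ih =>
    intro n j hj hk
    obtain ⟨m, rfl⟩ : ∃ m, n = m + 1 := ⟨n - 1, by omega⟩
    have h1 : D.walk F j ≠ Dm.stop := by
      intro h
      have : D.len F ≤ j := Nat.sInf_le h
      omega
    unfold run
    rw [if_neg h1]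
    have h2 : nxt (↑F ∪ D.wir) (D.walk F j) = D.walk F (j + 1) := (walk_succ D F j).symm
    rw [h2, ih m (j + 1) (by omega) (by omega), List.range_succ_eq_map (n := k + 1), List.map_cons,
      List.map_map, add_zero]
    congr 1
    apply List.map_congr_left
    intro i _
    simp only [Function.comp, Nat.succ_eq_add_one]
    congr 1
    omega

theorem run_walk (D : Dm) (F : Finset Edg) (hlen : D.walk F (D.len F) = Dm.stop) {n : ℕ}
    (hn : D.len F ≤ n) : run D.wir Dm.stop n D.start F = path D F := by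
  have h := run_walk_aux D F hlen (D.len F) n 0 (by omega) hn
  rw [walk_zero] at h
  rw [h]
  unfold path
  simp

theorem mem_rnd (D : Dm) (e : Edg) : e ∈ rnd D ↔ e ∈ D.edges ∧ e ∉ D.wir := by
  classical
  unfold rnd
  exact Finset.mem_filter

theorem bulk_sub (D : Dm) : rnd D ⊆ D.edges := fun e he => ((mem_rnd D e).1 he).1

theorem cfg_inter (D : Dm) {F : Finset Edg} (hF : F ⊆ D.edges) :
    D.cfg F = D.cfg (F ∩ rnd D) := by
  unfold Dm.cfg
  ext e
  simp only [Set.mem_union, Finset.mem_coe, Finset.mem_inter, mem_rnd]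
  constructor
  · rintro (h | h)
    · by_cases hw : e ∈ D.wir
      · exact Or.inr hw
      · exact Or.inl ⟨h, hF h, hw⟩
    · exact Or.inr h
  · rintro (h | h)
    · exact Or.inl h.1
    · exact Or.inr h

theorem len_inter (D : Dm) {F : Finset Edg} (hF : F ⊆ D.edges) :
    D.len F = D.len (F ∩ rnd D) := by
  unfold Dm.len Dm.walk
  rw [cfg_inter D hF]

theorem weight_one (D : Dm) (F : Finset Edg) : weight D 1 F = 1 := by
  unfold weight
  simp

/-- Mean number of steps for `q = 1`. -/
theorem sum_len : ∃ C : ℝ, 0 < C ∧ ∀ (D : Dm) (n : ℝ), D.Ok → 1 ≤ n → ((D.r - D.l : ℤ) : ℝ) ≤ n →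
    (D.h : ℝ) ≤ n →
    (∑ F ∈ (rnd D).powerset, (D.len F : ℝ)) / 2 ^ (rnd D).card ≤ C * n ^ (7/4 : ℝ) := by
  obtain ⟨-, ⟨C, hC, hU⟩, -⟩ := Results.MP_fe58d8_pr.NaturalCurve.inputs
  obtain ⟨C', hC', h⟩ := len_moment hC hU
  refine ⟨C', hC', fun D n hD hn h1 h2 => ?_⟩
  refine le_trans ?_ (h D n hD hn h1 h2)
  have e1 : E D.edges (fun F => (D.len F : ℝ) + 1) = E (rnd D) (fun F => (D.len F : ℝ) + 1) :=
    Ex_local (bulk_sub D) fun F hF => by rw [← len_inter D hF]
  rw [e1, Ex_half]
  have e2 : ((1:ℝ)/2) ^ (rnd D).card = 1 / 2 ^ (rnd D).card := by rw [div_pow, one_pow]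
  rw [e2, one_div_mul_eq_div]
  gcongr
  linarith

theorem rpow_half {n : ℝ} (hn : 0 ≤ n) : Real.sqrt (n ^ (7/4 : ℝ)) = n ^ (7/8 : ℝ) := by
  rw [Real.sqrt_eq_rpow, ← Real.rpow_mul hn]
  norm_num

/-- **Comparison of the random-cluster exploration path and the percolation exploration path.** -/
theorem fk_tv : ∃ C : ℝ, 0 < C ∧ ∀ (q : ℝ), 0 < q → ∀ (D : Dm) (n : ℝ), D.Ok → 1 ≤ n →
    ((D.r - D.l : ℤ) : ℝ) ≤ n → (D.h : ℝ) ≤ n → ∀ G : List St → ℝ, (∀ l, |G l| ≤ 1) →
    |mean D q (fun F => G (path D F)) - mean D 1 (fun F => G (path D F))| ≤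
      C * |q - 1| * n ^ (7/8 : ℝ) := by
  classical
  obtain ⟨C', hC', hlen⟩ := sum_len
  refine ⟨max 4 (2 * Real.sqrt (2 * C')), lt_of_lt_of_le (by norm_num) (le_max_left _ _), ?_⟩
  intro q hq D n hD hn h1 h2 G hG
  have hn78 : 1 ≤ n ^ (7/8 : ℝ) := Real.one_le_rpow hn (by norm_num)
  have habs : ∀ q : ℝ, 0 < q → |mean D q (fun F => G (path D F))| ≤ 1 := by
    intro q hq
    unfold mean
    have hZ : 0 < ∑ F ∈ (rnd D).powerset, weight D q F := Model.Z_pos D hq
    rw [abs_div, abs_of_pos hZ, div_le_one hZ]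
    refine (abs_sum_le_sum_abs _ _).trans (sum_le_sum fun F _ => ?_)
    rw [abs_mul, abs_of_pos (Model.weight_pos D hq F)]
    have := hG (path D F)
    have := Model.weight_pos D hq F
    nlinarith
  rcases lt_or_ge q (1/256) with hq1 | hq1
  · have h3 := habs q hq
    have h4 := habs 1 one_pos
    have h5 : |mean D q (fun F => G (path D F)) - mean D 1 (fun F => G (path D F))| ≤ 2 := by
      rw [abs_le] at h3 h4 ⊢
      constructor <;> linarith
    refine h5.trans ?_
    have h6 : (1/2 : ℝ) ≤ |q - 1| := by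
      rw [abs_of_neg (by linarith)]
      linarith
    calc (2:ℝ) = 4 * (1/2) * 1 := by norm_num
      _ ≤ max 4 (2 * Real.sqrt (2 * C')) * |q - 1| * n ^ (7/8 : ℝ) := by
        gcongr
        exact le_max_left _ _
  · set N := D.edges.powerset.sup D.len with hN
    have hNle : ∀ F ∈ (rnd D).powerset, D.len F ≤ N := fun F hF =>
      Finset.le_sup (f := D.len) (mem_powerset.2 ((mem_powerset.1 hF).trans (bulk_sub D)))
    set T := tr D.wir (rnd D) Dm.stop N D.start ∅ ∅ with hT
    have hrun : ∀ F ∈ (rnd D).powerset, run D.wir Dm.stop N D.start F = path D F := fun F hF =>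
      run_walk D F (walk_len hD ((mem_powerset.1 hF).trans (bulk_sub D))) (hNle F hF)
    have key := tv_tree (rat_fk D hq) T (tr_fr _ _ _ _ _ _ _)
      (g := fun F => G (run D.wir Dm.stop N D.start F)) (fun F => hG _) (tr_cst _ _ _ _ _ _ _ G)
    have e1 : mean D q (fun F => G (path D F)) =
        (∑ F ∈ (rnd D).powerset, weight D q F * G (run D.wir Dm.stop N D.start F)) /
          ∑ F ∈ (rnd D).powerset, weight D q F := by
      unfold mean
      congr 1
      exact sum_congr rfl fun F hF => by rw [hrun F hF]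
    have e2 : mean D 1 (fun F => G (path D F)) =
        (∑ F ∈ (rnd D).powerset, G (run D.wir Dm.stop N D.start F)) / 2 ^ (rnd D).card := by
      unfold mean
      congr 1
      · exact sum_congr rfl fun F hF => by rw [hrun F hF, weight_one, one_mul]
      · simp only [weight_one, sum_const, nsmul_eq_mul, mul_one, card_powerset]
        push_cast
        rfl
    rw [e1, e2]
    refine key.trans ?_
    have hcyl : cyl (rnd D) ∅ ∅ = (rnd D).powerset := by
      ext F
      simp [mem_cyl]
    have hdep : dep T ≤ C' * n ^ (7/4 : ℝ) := by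
      refine le_trans ?_ (hlen D n hD hn h1 h2)
      have h3 := sum_dp T ∅ ∅ (tr_fr D.wir (rnd D) Dm.stop N D.start ∅ ∅)
      have h4 : M (rnd D) one ∅ ∅ = 2 ^ (rnd D).card := by
        unfold M one
        rw [hcyl, sum_const, card_powerset, nsmul_eq_mul, mul_one]
        push_cast
        rfl
      rw [h4, hcyl] at h3
      have h5 : dep T = (∑ F ∈ (rnd D).powerset, (dp T F : ℝ)) / 2 ^ (rnd D).card := by
        rw [h3]
        field_simp
      rw [h5]
      refine div_le_div_of_nonneg_right (sum_le_sum fun F hF => ?_) (by positivity)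
      have h6 := tr_dp D.wir (rnd D) Dm.stop N D.start ∅ ∅ F (by rw [hcyl]; exact hF)
      rw [hrun F hF] at h6
      unfold path at h6
      rw [List.length_map, List.length_range] at h6
      have h7 : dp T F ≤ D.len F := by
        rw [hT]
        omega
      exact_mod_cast h7
    have hq2 := const_q hq1
    have hmul : dep T * ((1 + max (Real.sqrt q) (Real.sqrt q)⁻¹) /
        (2 * Real.sqrt (max (Real.sqrt q) (Real.sqrt q)⁻¹)) - 1) ≤
        (2 * C') * ((q - 1) ^ 2 * n ^ (7/4 : ℝ)) := by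
      calc dep T * ((1 + max (Real.sqrt q) (Real.sqrt q)⁻¹) /
            (2 * Real.sqrt (max (Real.sqrt q) (Real.sqrt q)⁻¹)) - 1)
          ≤ dep T * (2 * (q - 1) ^ 2) := mul_le_mul_of_nonneg_left hq2 (dep_nonneg T)
        _ ≤ (C' * n ^ (7/4 : ℝ)) * (2 * (q - 1) ^ 2) :=
          mul_le_mul_of_nonneg_right hdep (by positivity)
        _ = _ := by ring
    calc 2 * Real.sqrt (dep T * ((1 + max (Real.sqrt q) (Real.sqrt q)⁻¹) /
          (2 * Real.sqrt (max (Real.sqrt q) (Real.sqrt q)⁻¹)) - 1))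
        ≤ 2 * Real.sqrt ((2 * C') * ((q - 1) ^ 2 * n ^ (7/4 : ℝ))) :=
          mul_le_mul_of_nonneg_left (Real.sqrt_le_sqrt hmul) (by norm_num)
      _ = 2 * Real.sqrt (2 * C') * |q - 1| * n ^ (7/8 : ℝ) := by
        rw [Real.sqrt_mul (show 0 ≤ 2 * C' by positivity),
          Real.sqrt_mul (show 0 ≤ (q - 1) ^ 2 by positivity), Real.sqrt_sq_eq_abs,
          rpow_half (by linarith)]
        ring
      _ ≤ _ := by
        gcongr
        exact le_max_right _ _

end Pool.Agent.X136.FK
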