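import Pool.Agent.H984R4.NP.Model

set_option autoImplicit false

/-!
# The self-dual random-cluster (FK) model in a rectangle and its exploration path

The discrete domain `Dm`, its wired arc `Dm.wir`, the exploration path `Dm.walk`, its length
`Dm.len`, the rectangle `Rect`, the curve `Rect.curve` and its natural time `Rect.time` are those of
`Pool/Agent/H984R4/NP/Defs.lean` and `Pool/Agent/H984R4/NP/Model.lean` (edges, connections `Reach` and
states of the path: `Pool/Agent/H974R2/Lattice.lean`, `Pool/Agent/H984R3/Per/Defs.lean`).
-/

namespace Pool.Agent.X136.FK.Model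

open H974 H984P H984N MeasureTheory

section Lattice

variable (D : Dm)

open Classical in
/-- The edges of the rectangle which do not belong to the wired arc. -/
noncomputable def rnd : Finset Edg := D.edges.filter fun e => e ∉ D.wir

/-- The number of clusters: of connected components of the graph whose vertices are those of the
rectangle and whose edges are those of `F` and of the wired arc. -/
noncomputable def clusters (F : Finset Edg) : ℕ :=
  Set.ncard {K : Set Vtx | ∃ v : Vtx, (D.l ≤ v.1 ∧ v.1 ≤ D.r) ∧ (0 ≤ v.2 ∧ v.2 ≤ D.h) ∧
    K = {w | Reach (D.cfg F) v w}}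

/-- The weight of the set `F` of open edges of `rnd D` in the random-cluster model with parameter
`q` at the self-dual point `p / (1 - p) = √q`. -/
noncomputable def weight (q : ℝ) (F : Finset Edg) : ℝ := Real.sqrt q ^ F.card * q ^ clusters D F

/-- The mean of `f` in the random-cluster model. -/
noncomputable def mean (q : ℝ) (f : Finset Edg → ℝ) : ℝ :=
  (∑ F ∈ (rnd D).powerset, weight D q F * f F) / ∑ F ∈ (rnd D).powerset, weight D q F

/-- The exploration path from `(t, h)` to `(0, 0)`, as the list of its states. -/
noncomputable def path (F : Finset Edg) : List St := (List.range (D.len F + 1)).map (D.walk F)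

end Lattice

/-- The sum of the weights. -/
noncomputable def Z (D : Dm) (q : ℝ) : ℝ := ∑ F ∈ (rnd D).powerset, weight D q F

theorem weight_pos (D : Dm) {q : ℝ} (hq : 0 < q) (F : Finset Edg) : 0 < weight D q F := by
  unfold weight
  have := Real.sqrt_pos.2 hq
  positivity

theorem Z_pos (D : Dm) {q : ℝ} (hq : 0 < q) : 0 < Z D q :=
  Finset.sum_pos (fun F _ => weight_pos D hq F) ⟨∅, by simp⟩

/-- The law of the exploration path (as a curve with constant speed) and of its natural time for the
random-cluster model with parameter `q` at mesh `δ`. -/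
noncomputable def lawM (R : Rect) (q δ : ℝ) : Measure X :=
  ∑ F ∈ (rnd (R.dm δ)).powerset, ENNReal.ofReal (weight (R.dm δ) q F / Z (R.dm δ) q) •
    Measure.dirac (R.curve δ F, R.time δ F)

theorem lawM_univ (R : Rect) {q : ℝ} (hq : 0 < q) (δ : ℝ) : lawM R q δ Set.univ = 1 := by
  unfold lawM
  rw [Measure.finsetSum_apply]
  simp only [Measure.smul_apply, measure_univ, smul_eq_mul, mul_one]
  rw [← ENNReal.ofReal_sum_of_nonneg fun F _ =>
    div_nonneg (weight_pos _ hq F).le (Z_pos _ hq).le, ← Finset.sum_div]
  show ENNReal.ofReal (Z (R.dm δ) q / Z (R.dm δ) q) = 1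
  rw [div_self (Z_pos _ hq).ne', ENNReal.ofReal_one]

/-- The same, as a probability measure. -/
noncomputable def law (R : Rect) {q : ℝ} (hq : 0 < q) (δ : ℝ) : ProbabilityMeasure X :=
  ⟨lawM R q δ, ⟨lawM_univ R hq δ⟩⟩

end Pool.Agent.X136.FK.Model
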