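import Pool.Agent.X136.FK.Walk
import Pool.Agent.X136.FK.Model
import Pool.Agent.H973R2.Conn

set_option autoImplicit false

/-!
# Random-cluster weights: opening an edge
-/

namespace Pool.Agent.X136.FK

open Finset H974 H984P H984N
open Pool.Agent.X136.FK.Model (rnd clusters weight)

/-- the cluster of `v` -/
def cl (F : Set Edg) (v : Vtx) : Set Vtx := {w | Reach F v w}

theorem cl_eq {F : Set Edg} {v w : Vtx} (h : Reach F v w) : cl F v = cl F w := by
  ext x
  exact ⟨fun hx => h.symm.trans hx, fun hx => h.trans hx⟩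

/-- the set of the clusters of the vertices of `V` -/
def Ks (F : Set Edg) (V : Set Vtx) : Set (Set Vtx) := {K | ∃ v : Vtx, v ∈ V ∧ K = cl F v}

theorem Ks_fin (F : Set Edg) {V : Set Vtx} (hV : V.Finite) : (Ks F V).Finite := by
  have h : Ks F V ⊆ cl F '' V := by
    rintro K ⟨v, hv, rfl⟩
    exact ⟨v, hv, rfl⟩
  exact (hV.image _).subset h

theorem mono_insert {F : Set Edg} {e : Edg} {v w : Vtx} (h : Reach F v w) :
    Reach (insert e F) v w := by
  rw [H973.reach_insert]
  exact Or.inl h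

/-- the cluster in the larger configuration -/
def big (F : Set Edg) (e : Edg) (K : Set Vtx) : Set Vtx := {w | ∃ v ∈ K, Reach (insert e F) v w}

theorem big_cl (F : Set Edg) (e : Edg) (v : Vtx) : big F e (cl F v) = cl (insert e F) v := by
  ext w
  constructor
  · rintro ⟨x, hx, hw⟩
    exact (mono_insert hx).trans hw
  · intro hw
    exact ⟨v, Reach.refl _ _, hw⟩

theorem Ks_insert_le (F : Set Edg) (e : Edg) {V : Set Vtx} (hV : V.Finite) :
    (Ks (insert e F) V).ncard ≤ (Ks F V).ncard := by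
  have h : Ks (insert e F) V ⊆ big F e '' Ks F V := by
    rintro K ⟨v, hv, rfl⟩
    exact ⟨cl F v, ⟨v, hv, rfl⟩, big_cl F e v⟩
  exact (Set.ncard_le_ncard h ((Ks_fin F hV).image _)).trans (Set.ncard_image_le (Ks_fin F hV))

theorem Ks_le_insert (F : Set Edg) (e : Edg) {V : Set Vtx} (hV : V.Finite) :
    (Ks F V).ncard ≤ (Ks (insert e F) V).ncard + 1 := by
  have h1 : (Ks F V \ {cl F (tgt e)}).ncard ≤ (Ks (insert e F) V).ncard := by
    refine Set.ncard_le_ncard_of_injOn (big F e) ?_ ?_ (Ks_fin _ hV)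
    · rintro K ⟨⟨v, hv, rfl⟩, -⟩
      exact ⟨v, hv, big_cl F e v⟩
    · rintro K1 ⟨⟨v, hv, rfl⟩, n1⟩ K2 ⟨⟨w, hw, rfl⟩, n2⟩ h
      rw [big_cl, big_cl] at h
      have h2 : Reach (insert e F) v w := by
        have : w ∈ cl (insert e F) v := by rw [h]; exact Reach.refl _ _
        exact this
      rw [H973.reach_insert] at h2
      rcases h2 with h2 | ⟨h2, h3⟩ | ⟨h2, h3⟩
      · exact cl_eq h2
      · exact absurd (cl_eq h3).symm n2
      · exact absurd (cl_eq h2) n1
  have h2 := Set.ncard_le_ncard_sdiff_add_ncard (Ks F V) {cl F (tgt e)}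
  rw [Set.ncard_singleton] at h2
  omega

/-- the vertices of the rectangle -/
def vs (D : Dm) : Set Vtx := {v | (D.l ≤ v.1 ∧ v.1 ≤ D.r) ∧ (0 ≤ v.2 ∧ v.2 ≤ D.h)}

theorem vs_fin (D : Dm) : (vs D).Finite := by
  have h : vs D ⊆ ↑(Finset.Icc D.l D.r ×ˢ Finset.Icc 0 D.h) := by
    intro v hv
    rw [Finset.mem_coe, Finset.mem_product, Finset.mem_Icc, Finset.mem_Icc]
    exact hv
  exact (Finset.finite_toSet _).subset h

theorem clusters_eq (D : Dm) (F : Finset Edg) : clusters D F = (Ks (D.cfg F) (vs D)).ncard := by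
  unfold clusters Ks vs cl
  congr 1
  ext K
  constructor
  · rintro ⟨v, h1, h2, h3⟩
    exact ⟨v, ⟨h1, h2⟩, h3⟩
  · rintro ⟨v, ⟨h1, h2⟩, h3⟩
    exact ⟨v, h1, h2, h3⟩

theorem cfg_insert (D : Dm) (e : Edg) (F : Finset Edg) :
    D.cfg (insert e F) = insert e (D.cfg F) := by
  unfold Dm.cfg
  rw [Finset.coe_insert, Set.insert_union]

theorem clusters_insert (D : Dm) (e : Edg) (F : Finset Edg) :
    clusters D (insert e F) = clusters D F ∨ clusters D F = clusters D (insert e F) + 1 := by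
  have h1 := Ks_insert_le (D.cfg F) e (vs_fin D)
  have h2 := Ks_le_insert (D.cfg F) e (vs_fin D)
  rw [clusters_eq, clusters_eq, cfg_insert]
  omega

theorem rat_fk (D : Dm) {q : ℝ} (hq : 0 < q) :
    Rat (rnd D) (weight D q) (max (Real.sqrt q) (Real.sqrt q)⁻¹) := by
  have hs : 0 < Real.sqrt q := Real.sqrt_pos.2 hq
  have hss : Real.sqrt q * Real.sqrt q = q := Real.mul_self_sqrt hq.le
  have hm1 := le_max_left (Real.sqrt q) (Real.sqrt q)⁻¹
  have hm2 := le_max_right (Real.sqrt q) (Real.sqrt q)⁻¹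
  have hm0 : 0 < max (Real.sqrt q) (Real.sqrt q)⁻¹ := lt_of_lt_of_le hs hm1
  have hone : 1 ≤ max (Real.sqrt q) (Real.sqrt q)⁻¹ := by
    by_contra h
    push Not at h
    have h1 := lt_of_le_of_lt hm1 h
    have h2 := lt_of_le_of_lt hm2 h
    have h3 : Real.sqrt q * (Real.sqrt q)⁻¹ = 1 := mul_inv_cancel₀ hs.ne'
    have h4 : 0 < (Real.sqrt q)⁻¹ := by positivity
    nlinarith
  refine ⟨hone, fun F _ => Model.weight_pos D hq F, ?_, ?_⟩
  · intro F _ e _ heF
    unfold weight
    rw [Finset.card_insert_of_notMem heF]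
    rcases clusters_insert D e F with h | h
    · rw [h, pow_succ]
      have : 0 < Real.sqrt q ^ F.card * q ^ clusters D F := by positivity
      nlinarith
    · rw [h]
      have e1 : Real.sqrt q ^ F.card * q ^ (clusters D (insert e F) + 1) =
          (Real.sqrt q ^ (F.card + 1) * q ^ clusters D (insert e F)) * Real.sqrt q := by
        rw [pow_succ q, pow_succ (Real.sqrt q)]
        calc Real.sqrt q ^ F.card * (q ^ clusters D (insert e F) * q)
            = Real.sqrt q ^ F.card * q ^ clusters D (insert e F) * q := by ring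
          _ = Real.sqrt q ^ F.card * q ^ clusters D (insert e F) * (Real.sqrt q * Real.sqrt q) := by
            rw [hss]
          _ = _ := by ring
      rw [e1]
      have h2 : 1 ≤ max (Real.sqrt q) (Real.sqrt q)⁻¹ * Real.sqrt q := by
        calc (1:ℝ) = (Real.sqrt q)⁻¹ * Real.sqrt q := (inv_mul_cancel₀ hs.ne').symm
          _ ≤ _ := mul_le_mul_of_nonneg_right hm2 hs.le
      have : 0 < Real.sqrt q ^ (F.card + 1) * q ^ clusters D (insert e F) := by positivity
      nlinarith
  · intro F _ e _ heF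
    unfold weight
    rw [Finset.card_insert_of_notMem heF]
    rcases clusters_insert D e F with h | h
    · rw [h, pow_succ]
      have h2 : 1 ≤ max (Real.sqrt q) (Real.sqrt q)⁻¹ * Real.sqrt q := by
        calc (1:ℝ) = (Real.sqrt q)⁻¹ * Real.sqrt q := (inv_mul_cancel₀ hs.ne').symm
          _ ≤ _ := mul_le_mul_of_nonneg_right hm2 hs.le
      have : 0 < Real.sqrt q ^ F.card * q ^ clusters D F := by positivity
      nlinarith
    · rw [h]
      have e1 : Real.sqrt q ^ F.card * q ^ (clusters D (insert e F) + 1) =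
          (Real.sqrt q ^ (F.card + 1) * q ^ clusters D (insert e F)) * Real.sqrt q := by
        rw [pow_succ q, pow_succ (Real.sqrt q)]
        calc Real.sqrt q ^ F.card * (q ^ clusters D (insert e F) * q)
            = Real.sqrt q ^ F.card * q ^ clusters D (insert e F) * q := by ring
          _ = Real.sqrt q ^ F.card * q ^ clusters D (insert e F) * (Real.sqrt q * Real.sqrt q) := by
            rw [hss]
          _ = _ := by ring
      rw [e1]
      have : 0 < Real.sqrt q ^ (F.card + 1) * q ^ clusters D (insert e F) := by positivity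
      nlinarith

/-- the constant of the comparison in terms of `q` -/
theorem const_q {q : ℝ} (hq : 1/256 ≤ q) :
    (1 + max (Real.sqrt q) (Real.sqrt q)⁻¹) /
      (2 * Real.sqrt (max (Real.sqrt q) (Real.sqrt q)⁻¹)) - 1 ≤ 2 * (q - 1) ^ 2 := by
  have hq0 : 0 < q := by linarith
  have hs : 0 < Real.sqrt q := Real.sqrt_pos.2 hq0
  set x := Real.sqrt (Real.sqrt q) with hx
  have hx0 : 0 < x := Real.sqrt_pos.2 hs
  have hx2 : x ^ 2 = Real.sqrt q := Real.sq_sqrt hs.le
  have hx4 : x ^ 4 = q := by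
    rw [show x ^ 4 = (x ^ 2) ^ 2 by ring, hx2, Real.sq_sqrt hq0.le]
  have hx14 : 1/4 ≤ x := by
    by_contra h
    push Not at h
    have h1 : x ^ 4 < (1/4) ^ 4 := pow_lt_pow_left₀ h hx0.le (by norm_num)
    rw [hx4] at h1
    norm_num at h1
    linarith
  have key : ∀ r : ℝ, (r = x ^ 2 ∨ r = (x ^ 2)⁻¹) → (1 + r) / (2 * Real.sqrt r) - 1 =
      (x - 1) ^ 2 / (2 * x) := by
    intro r hr
    rcases hr with rfl | rfl
    · rw [Real.sqrt_sq hx0.le]
      field_simp
      ring
    · rw [show (x ^ 2)⁻¹ = (x⁻¹) ^ 2 by rw [inv_pow], Real.sqrt_sq (by positivity)]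
      field_simp
      ring
  have h1 : (1 + max (Real.sqrt q) (Real.sqrt q)⁻¹) /
      (2 * Real.sqrt (max (Real.sqrt q) (Real.sqrt q)⁻¹)) - 1 = (x - 1) ^ 2 / (2 * x) := by
    apply key
    rw [← hx2]
    exact max_choice _ _
  rw [h1]
  have h2 : (x - 1) ^ 2 ≤ (q - 1) ^ 2 := by
    rw [← hx4]
    have h3 : (x ^ 4 - 1) ^ 2 = (x - 1) ^ 2 * ((x + 1) * (x ^ 2 + 1)) ^ 2 := by ring
    rw [h3]
    have h4 : 1 ≤ ((x + 1) * (x ^ 2 + 1)) ^ 2 := by
      have h5 : 1 ≤ (x + 1) * (x ^ 2 + 1) := by nlinarith [sq_nonneg x]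
      exact one_le_pow₀ h5
    nlinarith [sq_nonneg (x - 1)]
  rw [div_le_iff₀ (by positivity)]
  nlinarith [sq_nonneg (q - 1)]

end Pool.Agent.X136.FK
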