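import Mathlib.Analysis.SpecialFunctions.Pow.Real
import Mathlib.Analysis.SpecialFunctions.Log.Basic
import Mathlib.Data.Finset.Powerset
import Mathlib.Algebra.BigOperators.Intervals

set_option autoImplicit false

/-!
# Total variation distance along decision trees

`S` is a finite set, its subsets are the configurations, and `w` is a weight for which adding an
element to a configuration changes the weight by a factor between `1 / r` and `r`. A function which
is determined by a decision tree of mean depth `D` (for the uniform measure) has almost the same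
mean for the weight `w` and for the uniform measure: the difference is at most
`2 sqrt (D ((1 + r) / (2 sqrt r) - 1))`.
-/

namespace Pool.Agent.X136.FK

open Finset

/-- Decision trees: at `node e t f` the element `e` is examined, and one goes on with `t` if it is
present and with `f` otherwise. -/
inductive DT (α : Type) : Type
  | leaf : DT α
  | node : α → DT α → DT α → DT α

variable {α : Type}

/-- mean depth for fair coins -/
noncomputable def dep : DT α → ℝ
  | .leaf => 0
  | .node _ t f => 1 + (dep t + dep f) / 2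

theorem dep_nonneg (T : DT α) : 0 ≤ dep T := by
  induction T with
  | leaf => exact le_rfl
  | node e t f h1 h2 => simp only [dep]; linarith

variable [DecidableEq α]

/-- the subsets of `S` which contain `O` and avoid `C` -/
def cyl (S O C : Finset α) : Finset (Finset α) := S.powerset.filter fun F => O ⊆ F ∧ Disjoint F C

theorem mem_cyl {S O C F : Finset α} : F ∈ cyl S O C ↔ F ⊆ S ∧ O ⊆ F ∧ Disjoint F C := by
  unfold cyl
  rw [mem_filter, mem_powerset]

/-- the mass of `cyl S O C` -/
noncomputable def M (S : Finset α) (w : Finset α → ℝ) (O C : Finset α) : ℝ := ∑ F ∈ cyl S O C, w F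

theorem cyl_split (S O C : Finset α) (e : α) :
    cyl S O C = cyl S (insert e O) C ∪ cyl S O (insert e C) := by
  ext F
  rw [mem_union, mem_cyl, mem_cyl, mem_cyl, insert_subset_iff, disjoint_insert_right]
  by_cases he : e ∈ F <;> simp [he]

theorem cyl_disj (S O C : Finset α) (e : α) :
    Disjoint (cyl S (insert e O) C) (cyl S O (insert e C)) := by
  rw [Finset.disjoint_left]
  intro F h1 h2
  rw [mem_cyl, insert_subset_iff] at h1
  rw [mem_cyl, disjoint_insert_right] at h2
  exact h2.2.2.1 h1.2.1.1

theorem M_split (S : Finset α) (w : Finset α → ℝ) (O C : Finset α) (e : α) :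
    M S w O C = M S w (insert e O) C + M S w O (insert e C) := by
  unfold M
  rw [cyl_split S O C e, sum_union (cyl_disj S O C e)]

theorem M_insert {S O C : Finset α} {e : α} (hS : e ∈ S) (hO : e ∉ O) (hC : e ∉ C)
    (w : Finset α → ℝ) :
    M S w (insert e O) C = ∑ F ∈ cyl S O (insert e C), w (insert e F) := by
  unfold M
  symm
  refine Finset.sum_nbij' (fun F => insert e F) (fun F => F.erase e) ?_ ?_ ?_ ?_ ?_
  · intro F hF
    rw [mem_cyl] at hF ⊢
    obtain ⟨h1, h2, h3⟩ := hF
    rw [disjoint_insert_right] at h3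
    refine ⟨insert_subset hS h1, insert_subset_insert _ h2, ?_⟩
    rw [disjoint_insert_left]
    exact ⟨hC, h3.2⟩
  · intro F hF
    rw [mem_cyl] at hF ⊢
    obtain ⟨h1, h2, h3⟩ := hF
    rw [insert_subset_iff] at h2
    refine ⟨(erase_subset _ _).trans h1, ?_, ?_⟩
    · intro x hx
      rw [mem_erase]
      exact ⟨fun h => hO (h ▸ hx), h2.2 hx⟩
    · rw [disjoint_insert_right]
      exact ⟨notMem_erase _ _, Disjoint.mono_left (erase_subset _ _) h3⟩
  · intro F hF
    rw [mem_cyl, disjoint_insert_right] at hF
    exact erase_insert hF.2.2.1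
  · intro F hF
    rw [mem_cyl, insert_subset_iff] at hF
    exact insert_erase hF.2.1.1
  · intro F _
    rfl

/-- adding an element changes the weight by a factor between `1 / r` and `r` -/
structure Rat (S : Finset α) (w : Finset α → ℝ) (r : ℝ) : Prop where
  one_le : 1 ≤ r
  pos : ∀ F, F ⊆ S → 0 < w F
  up : ∀ F, F ⊆ S → ∀ e ∈ S, e ∉ F → w (insert e F) ≤ r * w F
  dn : ∀ F, F ⊆ S → ∀ e ∈ S, e ∉ F → w F ≤ r * w (insert e F)

/-- the uniform weight -/
def one : Finset α → ℝ := fun _ => 1

theorem M_nonneg {S : Finset α} {w : Finset α → ℝ} (hw : ∀ F, F ⊆ S → 0 ≤ w F)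
    (O C : Finset α) : 0 ≤ M S w O C :=
  sum_nonneg fun F hF => hw F (mem_cyl.1 hF).1

theorem M_up {S : Finset α} {w : Finset α → ℝ} {r : ℝ} (h : Rat S w r) {O C : Finset α} {e : α}
    (hS : e ∈ S) (hO : e ∉ O) (hC : e ∉ C) :
    M S w (insert e O) C ≤ r * M S w O (insert e C) := by
  rw [M_insert hS hO hC, M, mul_sum]
  refine sum_le_sum fun F hF => ?_
  rw [mem_cyl, disjoint_insert_right] at hF
  exact h.up F hF.1 e hS hF.2.2.1

theorem M_dn {S : Finset α} {w : Finset α → ℝ} {r : ℝ} (h : Rat S w r) {O C : Finset α} {e : α}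
    (hS : e ∈ S) (hO : e ∉ O) (hC : e ∉ C) :
    M S w O (insert e C) ≤ r * M S w (insert e O) C := by
  rw [M_insert hS hO hC, M, mul_sum]
  refine sum_le_sum fun F hF => ?_
  rw [mem_cyl, disjoint_insert_right] at hF
  exact h.dn F hF.1 e hS hF.2.2.1

theorem M_one {S : Finset α} {O C : Finset α} {e : α} (hS : e ∈ S) (hO : e ∉ O) (hC : e ∉ C) :
    M S one (insert e O) C = M S one O (insert e C) := by
  rw [M_insert hS hO hC]
  rfl

/-- sum over the leaves -/
def ls (φ : Finset α → Finset α → ℝ) : DT α → Finset α → Finset α → ℝ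
  | .leaf, O, C => φ O C
  | .node e t f, O, C => ls φ t (insert e O) C + ls φ f O (insert e C)

theorem ls_M (S : Finset α) (w : Finset α → ℝ) (T : DT α) (O C : Finset α) :
    ls (M S w) T O C = M S w O C := by
  induction T generalizing O C with
  | leaf => rfl
  | node e t f h1 h2 =>
    show ls (M S w) t (insert e O) C + ls (M S w) f O (insert e C) = _
    rw [h1, h2, ← M_split]

theorem ls_lin (φ ψ : Finset α → Finset α → ℝ) (a b : ℝ) (T : DT α) (O C : Finset α) :
    ls (fun O C => a * φ O C + b * ψ O C) T O C = a * ls φ T O C + b * ls ψ T O C := by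
  induction T generalizing O C with
  | leaf => rfl
  | node e t f h1 h2 =>
    simp only [ls]
    rw [h1, h2]
    ring

/-- the elements examined by the tree are in `S` and have not been examined before -/
def Fr (S : Finset α) : DT α → Finset α → Finset α → Prop
  | .leaf, _, _ => True
  | .node e t f, O, C => e ∈ S ∧ e ∉ O ∧ e ∉ C ∧ Fr S t (insert e O) C ∧ Fr S f O (insert e C)

/-- number of elements examined in the configuration `F` -/
def dp : DT α → Finset α → ℕ
  | .leaf, _ => 0
  | .node e t f, F => 1 + if e ∈ F then dp t F else dp f F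

theorem sum_dp {S : Finset α} (T : DT α) (O C : Finset α) (h : Fr S T O C) :
    ∑ F ∈ cyl S O C, (dp T F : ℝ) = M S one O C * dep T := by
  induction T generalizing O C with
  | leaf => simp [dp, dep]
  | node e t f h1 h2 =>
    obtain ⟨hS, hO, hC, ht, hf⟩ := h
    rw [cyl_split S O C e, sum_union (cyl_disj S O C e)]
    have e1 : ∑ F ∈ cyl S (insert e O) C, (dp (DT.node e t f) F : ℝ) =
        M S one (insert e O) C * (1 + dep t) := by
      rw [mul_add, mul_one, ← h1 _ _ ht, M, ← sum_add_distrib]
      refine sum_congr rfl fun F hF => ?_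
      rw [mem_cyl, insert_subset_iff] at hF
      simp only [dp, if_pos hF.2.1.1, one]
      push_cast
      ring
    have e2 : ∑ F ∈ cyl S O (insert e C), (dp (DT.node e t f) F : ℝ) =
        M S one O (insert e C) * (1 + dep f) := by
      rw [mul_add, mul_one, ← h2 _ _ hf, M, ← sum_add_distrib]
      refine sum_congr rfl fun F hF => ?_
      rw [mem_cyl, disjoint_insert_right] at hF
      simp only [dp, if_neg hF.2.2.1, one]
      push_cast
      ring
    rw [e1, e2, M_split S one O C e, M_one hS hO hC]
    simp only [dep]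
    ring

/-- Lower bound for the Hellinger affinity. -/
theorem ls_sqrt {S : Finset α} {w : Finset α → ℝ} {r : ℝ} (h : Rat S w r) (T : DT α)
    (O C : Finset α) (hF : Fr S T O C) :
    Real.sqrt (M S one O C * M S w O C) * Real.sqrt (2 * Real.sqrt r / (1 + r)) ^ dep T ≤
      ls (fun O C => Real.sqrt (M S one O C * M S w O C)) T O C := by
  have hr := h.one_le
  have hr0 : 0 < r := by linarith
  have hsr : 0 < Real.sqrt r := Real.sqrt_pos.2 hr0
  have hκ : 0 < Real.sqrt (2 * Real.sqrt r / (1 + r)) := Real.sqrt_pos.2 (by positivity)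
  set κ := Real.sqrt (2 * Real.sqrt r / (1 + r)) with hκd
  have hκ2 : κ ^ 2 = 2 * Real.sqrt r / (1 + r) := Real.sq_sqrt (by positivity)
  induction T generalizing O C with
  | leaf => simp [dep, ls]
  | node e t f h1 h2 =>
    obtain ⟨hS, hO, hC, ht, hf⟩ := hF
    have i1 := h1 _ _ ht
    have i2 := h2 _ _ hf
    simp only [ls, dep]
    refine le_trans ?_ (add_le_add i1 i2)
    rw [M_split S one O C e, M_split S w O C e, M_one hS hO hC]
    have hx := M_up h hS hO hC
    have hy := M_dn h hS hO hC
    have hx0 := M_nonneg (fun F hF => (h.pos F hF).le) (insert e O) C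
    have hy0 := M_nonneg (fun F hF => (h.pos F hF).le) O (insert e C)
    have ha0 : 0 ≤ M S one O (insert e C) := M_nonneg (fun _ _ => zero_le_one) _ _
    set a := M S one O (insert e C)
    set x := M S w (insert e O) C
    set y := M S w O (insert e C)
    have hkey : (x + y) * κ ^ 2 ≤ 2 * Real.sqrt (x * y) := by
      rw [hκ2]
      have h3 : (x + y) * Real.sqrt r ≤ Real.sqrt (x * y) * (1 + r) := by
        rw [← abs_of_nonneg (by positivity : 0 ≤ (x + y) * Real.sqrt r),
          ← abs_of_nonneg (by positivity : 0 ≤ Real.sqrt (x * y) * (1 + r)), ← sq_le_sq, mul_pow,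
          mul_pow, Real.sq_sqrt hr0.le, Real.sq_sqrt (mul_nonneg hx0 hy0)]
        nlinarith [mul_nonneg (sub_nonneg.2 hx) (sub_nonneg.2 hy)]
      have h4 : (x + y) * (2 * Real.sqrt r / (1 + r)) = 2 * ((x + y) * Real.sqrt r) / (1 + r) := by
        ring
      rw [h4, div_le_iff₀ (by linarith)]
      linarith
    have hdt : 0 < κ ^ dep t := Real.rpow_pos_of_pos hκ _
    have hdf : 0 < κ ^ dep f := Real.rpow_pos_of_pos hκ _
    set u := Real.sqrt (a * x) * κ ^ dep t
    set v := Real.sqrt (a * y) * κ ^ dep f
    have hu : 0 ≤ u := by positivity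
    have hv : 0 ≤ v := by positivity
    have hd : κ ^ (1 + (dep t + dep f) / 2) * κ ^ (1 + (dep t + dep f) / 2) =
        κ ^ 2 * (κ ^ dep t * κ ^ dep f) := by
      rw [← Real.rpow_add hκ, ← Real.rpow_add hκ, ← Real.rpow_natCast κ 2, ← Real.rpow_add hκ]
      congr 1
      push_cast
      ring
    have hL : (Real.sqrt ((a + a) * (x + y)) * κ ^ (1 + (dep t + dep f) / 2)) ^ 2 ≤ (u + v) ^ 2 := by
      rw [mul_pow, Real.sq_sqrt (by positivity), sq (κ ^ (1 + (dep t + dep f) / 2)), hd]
      have h5 : u * v = a * Real.sqrt (x * y) * (κ ^ dep t * κ ^ dep f) := by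
        show Real.sqrt (a * x) * κ ^ dep t * (Real.sqrt (a * y) * κ ^ dep f) = _
        have h6 : Real.sqrt (a * x) * Real.sqrt (a * y) = a * Real.sqrt (x * y) := by
          rw [← Real.sqrt_mul (by positivity), show a * x * (a * y) = a ^ 2 * (x * y) by ring,
            Real.sqrt_mul (by positivity), Real.sqrt_sq ha0]
        calc Real.sqrt (a * x) * κ ^ dep t * (Real.sqrt (a * y) * κ ^ dep f)
            = (Real.sqrt (a * x) * Real.sqrt (a * y)) * (κ ^ dep t * κ ^ dep f) := by ring
          _ = _ := by rw [h6]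
      have h7 : (a + a) * (x + y) * (κ ^ 2 * (κ ^ dep t * κ ^ dep f)) ≤ 4 * (u * v) := by
        rw [h5]
        have h8 : 0 ≤ a * (κ ^ dep t * κ ^ dep f) := by positivity
        nlinarith [mul_le_mul_of_nonneg_left hkey h8]
      nlinarith [sq_nonneg (u - v)]
    exact (pow_le_pow_iff_left₀ (by positivity) (add_nonneg hu hv) two_ne_zero).1 hL

/-- the function is constant on the leaves -/
def Cst (S : Finset α) (g : Finset α → ℝ) : DT α → Finset α → Finset α → Prop
  | .leaf, O, C => ∀ F ∈ cyl S O C, ∀ F' ∈ cyl S O C, g F = g F'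
  | .node e t f, O, C => Cst S g t (insert e O) C ∧ Cst S g f O (insert e C)

theorem two_sqrt {T u v : ℝ} (h : ∀ l : ℝ, 0 < l → T ≤ l * u + v / l) (hu : 0 ≤ u) (hv : 0 ≤ v) :
    T ≤ 2 * Real.sqrt (u * v) := by
  rcases hu.eq_or_lt with hu0 | hu0
  · rw [← hu0, zero_mul, Real.sqrt_zero, mul_zero]
    refine le_of_forall_pos_le_add fun ε hε => ?_
    have h1 := h ((v + 1) / ε) (by positivity)
    rw [← hu0, mul_zero, zero_add, div_div_eq_mul_div] at h1
    refine h1.trans ?_
    rw [zero_add, div_le_iff₀ (by positivity)]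
    nlinarith
  · rcases hv.eq_or_lt with hv0 | hv0
    · rw [← hv0, mul_zero, Real.sqrt_zero, mul_zero]
      refine le_of_forall_pos_le_add fun ε hε => ?_
      have h1 := h (ε / u) (by positivity)
      rw [← hv0, zero_div, add_zero, div_mul_cancel₀ _ hu0.ne'] at h1
      linarith
    · have h1 := h (Real.sqrt v / Real.sqrt u)
        (div_pos (Real.sqrt_pos.2 hv0) (Real.sqrt_pos.2 hu0))
      refine h1.trans (le_of_eq ?_)
      rw [Real.sqrt_mul hu0.le]
      have h2 := Real.sq_sqrt hu0.le
      have h3 := Real.sq_sqrt hv0.le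
      have h4 := (Real.sqrt_pos.2 hu0).ne'
      have h5 := (Real.sqrt_pos.2 hv0).ne'
      field_simp
      rw [h2, h3]
      ring

/-- **The main inequality.** -/
theorem tv_tree {S : Finset α} {w : Finset α → ℝ} {r : ℝ} (h : Rat S w r) (T : DT α)
    (hF : Fr S T ∅ ∅) {g : Finset α → ℝ} (hg : ∀ F, |g F| ≤ 1) (hc : Cst S g T ∅ ∅) :
    |(∑ F ∈ S.powerset, w F * g F) / (∑ F ∈ S.powerset, w F) -
      (∑ F ∈ S.powerset, g F) / 2 ^ S.card| ≤
      2 * Real.sqrt (dep T * ((1 + r) / (2 * Real.sqrt r) - 1)) := by
  classical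
  have hr := h.one_le
  have hr0 : 0 < r := by linarith
  have hsr : 0 < Real.sqrt r := Real.sqrt_pos.2 hr0
  have hcyl : cyl S ∅ ∅ = S.powerset := by
    ext F
    simp [mem_cyl]
  set A := ∑ F ∈ S.powerset, w F with hA
  have hA' : M S w ∅ ∅ = A := by unfold M; rw [hcyl]
  have hA0 : 0 < A := sum_pos (fun F hF => h.pos F (mem_powerset.1 hF)) ⟨∅, by simp⟩
  set B : ℝ := 2 ^ S.card with hB
  have hB' : M S one ∅ ∅ = B := by
    unfold M one
    rw [hcyl, sum_const, card_powerset, nsmul_eq_mul, mul_one]
    push_cast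
    rfl
  have hB0 : 0 < B := by positivity
  -- leaf sums
  have hwnn : ∀ F, F ⊆ S → 0 ≤ w F := fun F hF => (h.pos F hF).le
  have hMo : ∀ O C : Finset α, 0 ≤ M S one O C := fun _ _ => M_nonneg (fun _ _ => zero_le_one) _ _
  have hMw : ∀ O C : Finset α, 0 ≤ M S w O C := fun _ _ => M_nonneg hwnn _ _
  set bc := ls (fun O C => Real.sqrt (M S one O C * M S w O C)) T ∅ ∅ with hbc
  have hleaf : ∀ l : ℝ, 0 < l → ∀ (T : DT α) (O C : Finset α), Cst S g T O C →
      |M S (fun F => w F * g F) O C / A - M S g O C / B| ≤
        (l / 2 + 1 / (2 * l)) * ls (fun O C => 1 / A * M S w O C + 1 / B * M S one O C) T O C -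
        (l - 1 / l) * (ls (fun O C => Real.sqrt (M S one O C * M S w O C)) T O C /
          Real.sqrt (A * B)) := by
    intro l hl T
    induction T with
    | leaf =>
      intro O C hc
      simp only [ls]
      rcases (cyl S O C).eq_empty_or_nonempty with he | ⟨F0, hF0⟩
      · have z : ∀ w' : Finset α → ℝ, M S w' O C = 0 := fun w' => by
          unfold M
          rw [he, sum_empty]
        rw [z, z, z, z]
        simp
      · have e1 : ∀ w' : Finset α → ℝ, M S (fun F => w' F * g F) O C = M S w' O C * g F0 := by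
          intro w'
          unfold M
          rw [sum_mul]
          exact sum_congr rfl fun F hF => by
            show w' F * g F = _
            rw [hc F hF F0 hF0]
        have e2 : M S g O C = M S one O C * g F0 := by
          rw [← e1]
          unfold M one
          exact sum_congr rfl fun F _ => by ring
        rw [e1, e2]
        have hp0 : 0 ≤ M S w O C / A := div_nonneg (M_nonneg hwnn _ _) hA0.le
        have hq0 : 0 ≤ M S one O C / B :=
          div_nonneg (M_nonneg (fun _ _ => zero_le_one) _ _) hB0.le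
        set p := M S w O C / A with hp
        set q := M S one O C / B with hq
        have e3 : M S w O C * g F0 / A - M S one O C * g F0 / B = g F0 * (p - q) := by
          rw [hp, hq]; ring
        have e4 : Real.sqrt (M S one O C * M S w O C) / Real.sqrt (A * B) =
            Real.sqrt p * Real.sqrt q := by
          rw [← Real.sqrt_mul hp0, ← Real.sqrt_div (mul_nonneg
            (hMo _ _) (hMw _ _)), hp, hq]
          congr 1
          field_simp
        have e5 : 1 / A * M S w O C + 1 / B * M S one O C = p + q := by rw [hp, hq]; ring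
        rw [e3, e4, e5, abs_mul]
        have h1 : |g F0| * |p - q| ≤ |p - q| := by
          have := hg F0
          nlinarith [abs_nonneg (p - q)]
        refine h1.trans ?_
        set s := Real.sqrt p
        set t := Real.sqrt q
        have hs : s ^ 2 = p := Real.sq_sqrt hp0
        have ht : t ^ 2 = q := Real.sq_sqrt hq0
        have hs0 : 0 ≤ s := Real.sqrt_nonneg _
        have ht0 : 0 ≤ t := Real.sqrt_nonneg _
        rw [← hs, ← ht]
        have h2 : |s ^ 2 - t ^ 2| = |s - t| * (s + t) := by
          rw [show s ^ 2 - t ^ 2 = (s - t) * (s + t) by ring, abs_mul,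
            abs_of_nonneg (add_nonneg hs0 ht0)]
        rw [h2]
        have h3 : (l / 2 + 1 / (2 * l)) * (s ^ 2 + t ^ 2) - (l - 1 / l) * (s * t) =
            l / 2 * |s - t| ^ 2 + 1 / (2 * l) * (s + t) ^ 2 := by
          rw [sq_abs]
          field_simp
          ring
        rw [h3]
        have h4 : l / 2 * |s - t| ^ 2 + 1 / (2 * l) * (s + t) ^ 2 - |s - t| * (s + t) =
            1 / (2 * l) * (l * |s - t| - (s + t)) ^ 2 := by
          field_simp
          ring
        have h5 : 0 ≤ 1 / (2 * l) * (l * |s - t| - (s + t)) ^ 2 := by positivity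
        linarith
    | node e t f h1 h2 =>
      intro O C hc
      obtain ⟨c1, c2⟩ := hc
      have i1 := h1 _ _ c1
      have i2 := h2 _ _ c2
      simp only [ls]
      rw [M_split S (fun F => w F * g F) O C e, M_split S g O C e]
      have e1 : (M S (fun F => w F * g F) (insert e O) C + M S (fun F => w F * g F) O (insert e C)) /
          A - (M S g (insert e O) C + M S g O (insert e C)) / B =
          (M S (fun F => w F * g F) (insert e O) C / A - M S g (insert e O) C / B) +
          (M S (fun F => w F * g F) O (insert e C) / A - M S g O (insert e C) / B) := by ring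
      rw [e1]
      refine (abs_add_le _ _).trans ((add_le_add i1 i2).trans (le_of_eq ?_))
      ring
  have hAB : 0 < Real.sqrt (A * B) := Real.sqrt_pos.2 (by positivity)
  have hone : ls (fun O C => 1 / A * M S w O C + 1 / B * M S one O C) T ∅ ∅ = 2 := by
    rw [ls_lin, ls_M, ls_M, hA', hB', one_div_mul_cancel hA0.ne', one_div_mul_cancel hB0.ne']
    norm_num
  set β := bc / Real.sqrt (A * B) with hβ
  have hT : ∀ l : ℝ, 0 < l → |M S (fun F => w F * g F) ∅ ∅ / A - M S g ∅ ∅ / B| ≤
      l * (1 - β) + (1 + β) / l := by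
    intro l hl
    refine (hleaf l hl T ∅ ∅ hc).trans (le_of_eq ?_)
    rw [hone, ← hbc, ← hβ]
    field_simp
    ring
  -- bounds for the affinity
  have hβ1 : β ≤ 1 := by
    rw [hβ, div_le_one hAB]
    have h1 : ∀ (T : DT α) (O C : Finset α),
        ls (fun O C => Real.sqrt (M S one O C * M S w O C)) T O C / Real.sqrt (A * B) ≤
        1 / 2 * ls (fun O C => 1 / A * M S w O C + 1 / B * M S one O C) T O C := by
      intro T
      induction T with
      | leaf =>
        intro O C
        simp only [ls]
        have hp0 : 0 ≤ M S w O C / A := div_nonneg (M_nonneg hwnn _ _) hA0.le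
        have hq0 : 0 ≤ M S one O C / B :=
          div_nonneg (M_nonneg (fun _ _ => zero_le_one) _ _) hB0.le
        have e4 : Real.sqrt (M S one O C * M S w O C) / Real.sqrt (A * B) =
            Real.sqrt (M S w O C / A) * Real.sqrt (M S one O C / B) := by
          rw [← Real.sqrt_mul hp0, ← Real.sqrt_div (mul_nonneg
            (hMo _ _) (hMw _ _))]
          congr 1
          field_simp
        rw [e4]
        have h5 := Real.sq_sqrt hp0
        have h6 := Real.sq_sqrt hq0
        have e5 : 1 / A * M S w O C + 1 / B * M S one O C =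
            M S w O C / A + M S one O C / B := by ring
        rw [e5]
        nlinarith [sq_nonneg (Real.sqrt (M S w O C / A) - Real.sqrt (M S one O C / B))]
      | node e t f h1 h2 =>
        intro O C
        simp only [ls]
        have := add_le_add (h1 (insert e O) C) (h2 O (insert e C))
        rw [add_div]
        linarith
    have h2 := h1 T ∅ ∅
    rw [hone, ← hbc, div_le_iff₀ hAB] at h2
    linarith
  have hβ0 : Real.sqrt (2 * Real.sqrt r / (1 + r)) ^ dep T ≤ β := by
    have h1 := ls_sqrt h T ∅ ∅ hF
    rw [hA', hB', ← hbc, mul_comm B A] at h1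
    rw [hβ, le_div_iff₀ hAB]
    linarith
  have hκ : 0 < Real.sqrt (2 * Real.sqrt r / (1 + r)) := Real.sqrt_pos.2 (by positivity)
  have hβnn : 0 ≤ β := le_trans (Real.rpow_nonneg hκ.le _) hβ0
  have hmain := two_sqrt hT (by linarith) (by linarith)
  have e6 : M S (fun F => w F * g F) ∅ ∅ = ∑ F ∈ S.powerset, w F * g F := by unfold M; rw [hcyl]
  have e7 : M S g ∅ ∅ = ∑ F ∈ S.powerset, g F := by unfold M; rw [hcyl]
  rw [e6, e7] at hmain
  refine hmain.trans ?_
  refine mul_le_mul_of_nonneg_left (Real.sqrt_le_sqrt ?_) (by norm_num)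
  have h3 : (1 - β) * (1 + β) = 1 - β ^ 2 := by ring
  rw [h3]
  -- `κ ^ (2 D) ≤ β ^ 2`
  set x := 2 * Real.sqrt r / (1 + r) with hx
  have hx0 : 0 < x := by positivity
  have h4 : x ^ dep T ≤ β ^ 2 := by
    have h5 : x ^ dep T = (Real.sqrt x ^ dep T) ^ 2 := by
      rw [← Real.rpow_natCast, ← Real.rpow_mul hκ.le, mul_comm, Real.rpow_mul hκ.le,
        Real.rpow_natCast, Real.sq_sqrt hx0.le]
    rw [h5]
    exact pow_le_pow_left₀ (Real.rpow_nonneg hκ.le _) hβ0 2
  have h6 : 1 - dep T * (1 / x - 1) ≤ x ^ dep T := by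
    have h7 : Real.log (1 / x) ≤ 1 / x - 1 := Real.log_le_sub_one_of_pos (by positivity)
    rw [one_div, Real.log_inv] at h7
    rw [Real.rpow_def_of_pos hx0]
    have h8 := Real.add_one_le_exp (Real.log x * dep T)
    have h9 := dep_nonneg T
    rw [one_div]
    nlinarith
  have h10 : 1 / x = (1 + r) / (2 * Real.sqrt r) := by rw [hx, one_div_div]
  rw [← h10]
  linarith

end Pool.Agent.X136.FK
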