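import Pool.Agent.X136.FK.Tree
import Pool.Agent.H984R3.Per.Defs

set_option autoImplicit false

/-!
# The exploration path is determined by a decision tree
-/

namespace Pool.Agent.X136.FK

open Finset H974 H984P

open Classical in
/-- the states visited in `n` steps, or until `stop` -/
noncomputable def run (W : Set Edg) (stop : St) : ℕ → St → Finset Edg → List St
  | 0, σ, _ => [σ]
  | n + 1, σ, F => if σ = stop then [σ] else σ :: run W stop n (nxt (↑F ∪ W) σ) F

open Classical in
/-- the decision tree: `O` are the edges known to be open, `C` those known to be closed -/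
noncomputable def tr (W : Set Edg) (S : Finset Edg) (stop : St) :
    ℕ → St → Finset Edg → Finset Edg → DT Edg
  | 0, _, _, _ => .leaf
  | n + 1, σ, O, C =>
    if σ = stop then .leaf
    else if ae σ ∈ W ∨ ae σ ∈ O then tr W S stop n (mv σ) O C
    else if ae σ ∈ C ∨ ae σ ∉ S then tr W S stop n (rt σ) O C
    else .node (ae σ) (tr W S stop n (mv σ) (insert (ae σ) O) C)
      (tr W S stop n (rt σ) O (insert (ae σ) C))

theorem tr_fr (W : Set Edg) (S : Finset Edg) (stop : St) (n : ℕ) (σ : St) (O C : Finset Edg) :
    Fr S (tr W S stop n σ O C) O C := by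
  induction n generalizing σ O C with
  | zero => trivial
  | succ n ih =>
    unfold tr
    split_ifs with h1 h2 h3
    · trivial
    · exact ih _ _ _
    · exact ih _ _ _
    · push Not at h2 h3
      exact ⟨h3.2, h2.2, h3.1, ih _ _ _, ih _ _ _⟩

theorem Cst_congr {S : Finset Edg} {g g' : Finset Edg → ℝ} (T : DT Edg) (O C : Finset Edg)
    (h : ∀ F ∈ cyl S O C, g F = g' F) (hc : Cst S g T O C) : Cst S g' T O C := by
  induction T generalizing O C with
  | leaf => exact fun F hF F' hF' => by rw [← h F hF, ← h F' hF']; exact hc F hF F' hF'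
  | node e t f h1 h2 =>
    refine ⟨h1 _ _ (fun F hF => h F ?_) hc.1, h2 _ _ (fun F hF => h F ?_) hc.2⟩
    · rw [cyl_split S O C e]; exact mem_union_left _ hF
    · rw [cyl_split S O C e]; exact mem_union_right _ hF

theorem tr_cst (W : Set Edg) (S : Finset Edg) (stop : St) (n : ℕ) (σ : St) (O C : Finset Edg)
    (G : List St → ℝ) : Cst S (fun F => G (run W stop n σ F)) (tr W S stop n σ O C) O C := by
  induction n generalizing σ O C G with
  | zero => exact fun F _ F' _ => rfl
  | succ n ih =>
    unfold tr
    split_ifs with h1 h2 h3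
    · intro F _ F' _
      show G (run W stop (n + 1) σ F) = G (run W stop (n + 1) σ F')
      unfold run
      rw [if_pos h1, if_pos h1]
    · refine Cst_congr _ _ _ (fun F hF => ?_) (ih (mv σ) O C (fun l => G (σ :: l)))
      show G (σ :: run W stop n (mv σ) F) = G (run W stop (n + 1) σ F)
      rw [mem_cyl] at hF
      conv_rhs => unfold run
      rw [if_neg h1, nxt_open]
      rcases h2 with h2 | h2
      · exact Or.inr h2
      · exact Or.inl (by exact_mod_cast hF.2.1 h2)
    · refine Cst_congr _ _ _ (fun F hF => ?_) (ih (rt σ) O C (fun l => G (σ :: l)))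
      show G (σ :: run W stop n (rt σ) F) = G (run W stop (n + 1) σ F)
      rw [mem_cyl] at hF
      conv_rhs => unfold run
      push Not at h2
      rw [if_neg h1, nxt_closed]
      rintro (h4 | h4)
      · have h5 : ae σ ∈ F := by exact_mod_cast h4
        rcases h3 with h3 | h3
        · exact Finset.disjoint_left.1 hF.2.2 h5 h3
        · exact h3 (hF.1 h5)
      · exact h2.1 h4
    · push Not at h2 h3
      refine ⟨Cst_congr _ _ _ (fun F hF => ?_) (ih (mv σ) _ C (fun l => G (σ :: l))),
        Cst_congr _ _ _ (fun F hF => ?_) (ih (rt σ) O _ (fun l => G (σ :: l)))⟩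
      · show G (σ :: run W stop n (mv σ) F) = G (run W stop (n + 1) σ F)
        rw [mem_cyl, insert_subset_iff] at hF
        conv_rhs => unfold run
        rw [if_neg h1, nxt_open]
        exact Or.inl (by exact_mod_cast hF.2.1.1)
      · show G (σ :: run W stop n (rt σ) F) = G (run W stop (n + 1) σ F)
        rw [mem_cyl, disjoint_insert_right] at hF
        conv_rhs => unfold run
        rw [if_neg h1, nxt_closed]
        rintro (h4 | h4)
        · exact hF.2.2.1 (by exact_mod_cast h4)
        · exact h2.1 h4

theorem tr_dp (W : Set Edg) (S : Finset Edg) (stop : St) (n : ℕ) (σ : St) (O C F : Finset Edg)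
    (hF : F ∈ cyl S O C) : dp (tr W S stop n σ O C) F + 1 ≤ (run W stop n σ F).length := by
  induction n generalizing σ O C with
  | zero => simp [tr, run, dp]
  | succ n ih =>
    have hF' := hF
    rw [mem_cyl] at hF
    unfold tr run
    split_ifs with h1 h2 h3
    · simp [dp]
    · rw [nxt_open (by
        rcases h2 with h2 | h2
        · exact Or.inr h2
        · exact Or.inl (by exact_mod_cast hF.2.1 h2)), List.length_cons]
      exact (ih _ _ _ hF').trans (Nat.le_succ _)
    · push Not at h2
      rw [nxt_closed (by
        rintro (h4 | h4)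
        · have h5 : ae σ ∈ F := by exact_mod_cast h4
          rcases h3 with h3 | h3
          · exact Finset.disjoint_left.1 hF.2.2 h5 h3
          · exact h3 (hF.1 h5)
        · exact h2.1 h4), List.length_cons]
      exact (ih _ _ _ hF').trans (Nat.le_succ _)
    · push Not at h2 h3
      simp only [dp, List.length_cons]
      by_cases h4 : ae σ ∈ F
      · rw [if_pos h4, nxt_open (Or.inl (by exact_mod_cast h4))]
        have := ih (mv σ) (insert (ae σ) O) C (by
          rw [mem_cyl, insert_subset_iff]
          exact ⟨hF.1, ⟨h4, hF.2.1⟩, hF.2.2⟩)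
        omega
      · rw [if_neg h4, nxt_closed (by
          rintro (h5 | h5)
          · exact h4 (by exact_mod_cast h5)
          · exact h2.1 h5)]
        have := ih (rt σ) O (insert (ae σ) C) (by
          rw [mem_cyl, disjoint_insert_right]
          exact ⟨hF.1, hF.2.1, h4, hF.2.2⟩)
        omega

end Pool.Agent.X136.FK
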